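import Mathlib

/-!
# A linear functional on functions on a circle, given by a bounded sequence of moments

For a bounded sequence `μ` and `1 < r` put `cell μ r f = (2π)⁻¹ ∫ f (r e^{iθ}) L(θ) dθ`,
`L(θ) = ∑ μ k (r e^{iθ})^{-k}`. If `f z = ∑ a k z^k` on the circle and `∑ ‖a k‖ r^k < ∞`, then
`cell μ r f = ∑ μ k a k`.
-/

open scoped BigOperators Topology Interval
open MeasureTheory Set Filter

namespace Pool.Agent.GC34

/-- the point `r e^{iθ}` -/
noncomputable def cz (r θ : ℝ) : ℂ := (r : ℂ) * Complex.exp (θ * Complex.I)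

/-- the kernel `∑ μ k (r e^{iθ})^{-k}` -/
noncomputable def circL (μ : ℕ → ℝ) (r θ : ℝ) : ℂ := ∑' k, (μ k : ℂ) * ((cz r θ)⁻¹) ^ k

/-- the functional -/
noncomputable def cell (μ : ℕ → ℝ) (r : ℝ) (f : ℂ → ℂ) : ℂ :=
  (2 * Real.pi : ℂ)⁻¹ * ∫ θ in Ioc (0 : ℝ) (2 * Real.pi), f (cz r θ) * circL μ r θ

theorem norm_cz {r : ℝ} (hr : 0 < r) (θ : ℝ) : ‖cz r θ‖ = r := by
  unfold cz
  rw [norm_mul, Complex.norm_exp_ofReal_mul_I, mul_one, Complex.norm_real, Real.norm_eq_abs,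
    abs_of_pos hr]

theorem cz_ne_zero {r : ℝ} (hr : 0 < r) (θ : ℝ) : cz r θ ≠ 0 := by
  rw [← norm_pos_iff, norm_cz hr]; exact hr

theorem continuous_cz (r : ℝ) : Continuous (cz r) := by
  unfold cz
  fun_prop

theorem norm_term_le {μ : ℕ → ℝ} {r K : ℝ} (hr : 1 < r) (hK : ∀ k, |μ k| ≤ K) (θ : ℝ) (k : ℕ) :
    ‖(μ k : ℂ) * ((cz r θ)⁻¹) ^ k‖ ≤ K * (r⁻¹) ^ k := by
  have hr0 : 0 < r := by linarith
  rw [norm_mul, norm_pow, norm_inv, norm_cz hr0, Complex.norm_real, Real.norm_eq_abs]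
  exact mul_le_mul_of_nonneg_right (hK k) (by positivity)

theorem summable_geom {r K : ℝ} (hr : 1 < r) : Summable fun k : ℕ => K * (r⁻¹) ^ k := by
  have hr0 : 0 < r := by linarith
  apply Summable.mul_left
  apply summable_geometric_of_lt_one (by positivity)
  exact inv_lt_one_of_one_lt₀ hr

theorem continuous_circL {μ : ℕ → ℝ} {r K : ℝ} (hr : 1 < r) (hK : ∀ k, |μ k| ≤ K) :
    Continuous (circL μ r) := by
  have hr0 : 0 < r := by linarith
  unfold circL
  apply continuous_tsum (u := fun k : ℕ => K * (r⁻¹) ^ k) _ (summable_geom hr)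
    (fun k θ => norm_term_le hr hK θ k)
  intro k
  apply continuous_const.mul
  apply Continuous.pow
  exact (continuous_cz r).inv₀ (cz_ne_zero hr0)

theorem norm_circL_le {μ : ℕ → ℝ} {r K : ℝ} (hr : 1 < r) (hK : ∀ k, |μ k| ≤ K) (θ : ℝ) :
    ‖circL μ r θ‖ ≤ K * (1 - r⁻¹)⁻¹ := by
  have hr0 : 0 < r := by linarith
  unfold circL
  have h1 : HasSum (fun k : ℕ => K * (r⁻¹) ^ k) (K * (1 - r⁻¹)⁻¹) :=
    (hasSum_geometric_of_lt_one (by positivity) (inv_lt_one_of_one_lt₀ hr)).mul_left K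
  exact tsum_of_norm_bounded h1 (norm_term_le hr hK θ)

/-- orthogonality on the circle -/
theorem integral_cz_pow {r : ℝ} (hr : 0 < r) (j k : ℕ) :
    ∫ θ in Ioc (0 : ℝ) (2 * Real.pi), (cz r θ) ^ j * ((cz r θ)⁻¹) ^ k =
      if j = k then (2 * Real.pi : ℂ) else 0 := by
  have hpi : (0 : ℝ) ≤ 2 * Real.pi := by positivity
  have e : ∀ θ : ℝ, (cz r θ) ^ j * ((cz r θ)⁻¹) ^ k =
      ((r : ℂ) ^ j * ((r : ℂ)⁻¹) ^ k) * Complex.exp ((((j : ℂ) - k) * Complex.I) * θ) := by
    intro θ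
    unfold cz
    rw [mul_inv, mul_pow, mul_pow, ← Complex.exp_neg, ← Complex.exp_nat_mul,
      ← Complex.exp_nat_mul]
    have : Complex.exp ((((j : ℂ) - k) * Complex.I) * θ) =
        Complex.exp ((j : ℂ) * (θ * Complex.I)) * Complex.exp ((k : ℂ) * -(θ * Complex.I)) := by
      rw [← Complex.exp_add]
      congr 1
      ring
    rw [this]
    ring
  simp_rw [e]
  rw [← intervalIntegral.integral_of_le hpi, intervalIntegral.integral_const_mul]
  split_ifs with h
  · subst h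
    have hr' : (r : ℂ) ≠ 0 := by exact_mod_cast hr.ne'
    simp [hr']
  · have hc : ((j : ℂ) - k) * Complex.I ≠ 0 := by
      apply mul_ne_zero _ Complex.I_ne_zero
      rw [sub_ne_zero]
      exact_mod_cast h
    rw [integral_exp_mul_complex hc]
    have h1 : Complex.exp (((j : ℂ) - k) * Complex.I * ((2 * Real.pi : ℝ) : ℂ)) = 1 := by
      rw [Complex.exp_eq_one_iff]
      refine ⟨(j : ℤ) - k, ?_⟩
      push_cast
      ring
    rw [h1]
    simp

theorem integral_bdd_circle {g : ℝ → ℂ} (hg : Continuous g) :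
    IntegrableOn g (Ioc (0 : ℝ) (2 * Real.pi)) :=
  (hg.continuousOn.integrableOn_Icc (a := (0 : ℝ)) (b := 2 * Real.pi)).mono_set Ioc_subset_Icc_self

theorem cell_pow {μ : ℕ → ℝ} {r K : ℝ} (hr : 1 < r) (hK : ∀ k, |μ k| ≤ K) (j : ℕ) :
    cell μ r (fun z => z ^ j) = μ j := by
  have hr0 : 0 < r := by linarith
  have hpi : (0 : ℝ) ≤ 2 * Real.pi := by positivity
  unfold cell
  have h1 : HasSum (fun k : ℕ => ∫ θ in Ioc (0 : ℝ) (2 * Real.pi),
      (cz r θ) ^ j * ((μ k : ℂ) * ((cz r θ)⁻¹) ^ k))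
      (∫ θ in Ioc (0 : ℝ) (2 * Real.pi), ∑' k : ℕ,
        (cz r θ) ^ j * ((μ k : ℂ) * ((cz r θ)⁻¹) ^ k)) := by
    have hb : ∀ k θ, ‖(cz r θ) ^ j * ((μ k : ℂ) * ((cz r θ)⁻¹) ^ k)‖ ≤
        r ^ j * (K * (r⁻¹) ^ k) := by
      intro k θ
      rw [norm_mul, norm_pow, norm_cz hr0]
      exact mul_le_mul_of_nonneg_left (norm_term_le hr hK θ k) (by positivity)
    have hc : ∀ k : ℕ, Continuous fun θ => (cz r θ) ^ j * ((μ k : ℂ) * ((cz r θ)⁻¹) ^ k) := by
      intro k
      have := (continuous_cz r).inv₀ (cz_ne_zero hr0)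
      exact ((continuous_cz r).pow j).mul (continuous_const.mul (this.pow k))
    apply hasSum_integral_of_summable_integral_norm
    · intro k
      exact integral_bdd_circle (hc k)
    · have h2 : Summable fun k : ℕ => ∫ _θ in Ioc (0 : ℝ) (2 * Real.pi),
          r ^ j * (K * (r⁻¹) ^ k) := by
        simp only [setIntegral_const]
        exact ((summable_geom (K := K) hr).mul_left (r ^ j)).const_smul _
      apply Summable.of_nonneg_of_le _ _ h2
      · intro k
        exact integral_nonneg fun _ => norm_nonneg _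
      · intro k
        apply integral_mono_of_nonneg
        · exact Eventually.of_forall fun _ => norm_nonneg _
        · exact (continuous_const.continuousOn.integrableOn_Icc (a := (0 : ℝ))
            (b := 2 * Real.pi)).mono_set Ioc_subset_Icc_self
        · exact Eventually.of_forall fun θ => hb k θ
  have h2 : ∀ k : ℕ, ∫ θ in Ioc (0 : ℝ) (2 * Real.pi),
      (cz r θ) ^ j * ((μ k : ℂ) * ((cz r θ)⁻¹) ^ k) =
      if k = j then (2 * Real.pi : ℂ) * μ j else 0 := by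
    intro k
    have : ∀ θ : ℝ, (cz r θ) ^ j * ((μ k : ℂ) * ((cz r θ)⁻¹) ^ k) =
        (μ k : ℂ) * ((cz r θ) ^ j * ((cz r θ)⁻¹) ^ k) := fun θ => by ring
    simp_rw [this]
    rw [integral_const_mul, integral_cz_pow hr0]
    by_cases h : j = k
    · subst h; simp [mul_comm]
    · rw [if_neg h, if_neg (Ne.symm h), mul_zero]
  simp_rw [h2] at h1
  have h3 := (hasSum_ite_eq j ((2 * Real.pi : ℂ) * μ j)).unique h1
  have h4 : ∀ θ : ℝ, (∑' k : ℕ, (cz r θ) ^ j * ((μ k : ℂ) * ((cz r θ)⁻¹) ^ k)) =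
      (cz r θ) ^ j * circL μ r θ := by
    intro θ
    unfold circL
    rw [tsum_mul_left]
  simp_rw [h4] at h3
  rw [← h3]
  have hpi' : (2 * Real.pi : ℂ) ≠ 0 := by
    have : (0 : ℝ) < 2 * Real.pi := by positivity
    exact_mod_cast this.ne'
  field_simp

/-- termwise evaluation for a convergent sum of functions on the circle -/
theorem hasSum_cell {μ : ℕ → ℝ} {r K : ℝ} (hr : 1 < r) (hK : ∀ k, |μ k| ≤ K)
    {ι : Type*} [Countable ι] {F : ι → ℂ → ℂ} {f : ℂ → ℂ} {b : ι → ℝ}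
    (hF : ∀ i, Continuous fun θ => F i (cz r θ)) (hb : ∀ i θ, ‖F i (cz r θ)‖ ≤ b i)
    (hs : Summable b) (hf : ∀ θ, HasSum (fun i => F i (cz r θ)) (f (cz r θ))) :
    HasSum (fun i => cell μ r (F i)) (cell μ r f) := by
  have hr0 : 0 < r := by linarith
  unfold cell
  apply HasSum.mul_left
  have hcL := continuous_circL hr hK
  set M : ℝ := K * (1 - r⁻¹)⁻¹
  have hM : ∀ θ, ‖circL μ r θ‖ ≤ M := norm_circL_le hr hK
  have h1 : HasSum (fun i : ι => ∫ θ in Ioc (0 : ℝ) (2 * Real.pi), F i (cz r θ) * circL μ r θ)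
      (∫ θ in Ioc (0 : ℝ) (2 * Real.pi), ∑' i : ι, F i (cz r θ) * circL μ r θ) := by
    have hM0 : 0 ≤ M := (norm_nonneg _).trans (hM 0)
    have hb' : ∀ i θ, ‖F i (cz r θ) * circL μ r θ‖ ≤ b i * M := by
      intro i θ
      rw [norm_mul]
      exact mul_le_mul (hb i θ) (hM θ) (norm_nonneg _) ((norm_nonneg _).trans (hb i θ))
    apply hasSum_integral_of_summable_integral_norm
    · intro i
      exact integral_bdd_circle ((hF i).mul hcL)
    · have h2 : Summable fun i : ι => ∫ _θ in Ioc (0 : ℝ) (2 * Real.pi), b i * M := by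
        simp only [setIntegral_const]
        exact (hs.mul_right M).const_smul _
      apply Summable.of_nonneg_of_le _ _ h2
      · intro i
        exact integral_nonneg fun _ => norm_nonneg _
      · intro i
        apply integral_mono_of_nonneg
        · exact Eventually.of_forall fun _ => norm_nonneg _
        · exact (continuous_const.continuousOn.integrableOn_Icc (a := (0 : ℝ))
            (b := 2 * Real.pi)).mono_set Ioc_subset_Icc_self
        · exact Eventually.of_forall fun θ => hb' i θ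
  have h2 : ∀ θ : ℝ, (∑' i : ι, F i (cz r θ) * circL μ r θ) = f (cz r θ) * circL μ r θ :=
    fun θ => ((hf θ).mul_right _).tsum_eq
  simp_rw [h2] at h1
  exact h1

/-- the coefficient lemma -/
theorem hasSum_cell_coeff {μ : ℕ → ℝ} {r K : ℝ} (hr : 1 < r) (hK : ∀ k, |μ k| ≤ K)
    {a : ℕ → ℂ} {f : ℂ → ℂ} (hs : Summable fun k => ‖a k‖ * r ^ k)
    (hf : ∀ θ, HasSum (fun k => a k * (cz r θ) ^ k) (f (cz r θ))) :
    HasSum (fun k => (μ k : ℂ) * a k) (cell μ r f) := by
  have hr0 : 0 < r := by linarith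
  have h := hasSum_cell hr hK (F := fun k z => a k * z ^ k) (f := f) (b := fun k => ‖a k‖ * r ^ k)
    (fun k => continuous_const.mul ((continuous_cz r).pow k))
    (fun k θ => by rw [norm_mul, norm_pow, norm_cz hr0]) hs hf
  have e : ∀ k, cell μ r (fun z => a k * z ^ k) = (μ k : ℂ) * a k := by
    intro k
    rw [← cell_pow hr hK k]
    unfold cell
    simp_rw [mul_assoc]
    rw [integral_const_mul]
    ring
  simpa only [e] using h

theorem cell_eq_tsum {μ : ℕ → ℝ} {r K : ℝ} (hr : 1 < r) (hK : ∀ k, |μ k| ≤ K)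
    {a : ℕ → ℂ} {f : ℂ → ℂ} (hs : Summable fun k => ‖a k‖ * r ^ k)
    (hf : ∀ θ, HasSum (fun k => a k * (cz r θ) ^ k) (f (cz r θ))) :
    cell μ r f = ∑' k, (μ k : ℂ) * a k :=
  (hasSum_cell_coeff hr hK hs hf).tsum_eq.symm

theorem cell_congr {μ : ℕ → ℝ} {r : ℝ} {f g : ℂ → ℂ} (h : ∀ θ, f (cz r θ) = g (cz r θ)) :
    cell μ r f = cell μ r g := by
  unfold cell
  simp_rw [h]

theorem cell_const_mul (μ : ℕ → ℝ) (r : ℝ) (c : ℂ) (f : ℂ → ℂ) :
    cell μ r (fun z => c * f z) = c * cell μ r f := by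
  unfold cell
  simp_rw [mul_assoc]
  rw [integral_const_mul]
  ring

theorem cell_add {μ : ℕ → ℝ} {r K : ℝ} (hr : 1 < r) (hK : ∀ k, |μ k| ≤ K) {f g : ℂ → ℂ}
    (hf : Continuous fun θ => f (cz r θ)) (hg : Continuous fun θ => g (cz r θ)) :
    cell μ r (fun z => f z + g z) = cell μ r f + cell μ r g := by
  unfold cell
  have hcL := continuous_circL hr hK
  have h1 : IntegrableOn (fun θ => f (cz r θ) * circL μ r θ) (Ioc (0 : ℝ) (2 * Real.pi)) :=
    integral_bdd_circle (hf.mul hcL)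
  have h2 : IntegrableOn (fun θ => g (cz r θ) * circL μ r θ) (Ioc (0 : ℝ) (2 * Real.pi)) :=
    integral_bdd_circle (hg.mul hcL)
  simp_rw [add_mul]
  rw [integral_add h1 h2]
  ring

theorem cell_sum {μ : ℕ → ℝ} {r K : ℝ} (hr : 1 < r) (hK : ∀ k, |μ k| ≤ K) {ι : Type*}
    (s : Finset ι) {f : ι → ℂ → ℂ} (hf : ∀ i ∈ s, Continuous fun θ => f i (cz r θ)) :
    cell μ r (fun z => ∑ i ∈ s, f i z) = ∑ i ∈ s, cell μ r (f i) := by
  unfold cell
  have hcL := continuous_circL hr hK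
  have h1 : ∀ i ∈ s, IntegrableOn (fun θ => f i (cz r θ) * circL μ r θ)
      (Ioc (0 : ℝ) (2 * Real.pi)) := fun i hi => integral_bdd_circle ((hf i hi).mul hcL)
  simp_rw [Finset.sum_mul]
  rw [integral_finsetSum s h1, Finset.mul_sum]

theorem norm_cell_le {μ : ℕ → ℝ} {r K : ℝ} (hr : 1 < r) (hK : ∀ k, |μ k| ≤ K) {f : ℂ → ℂ} {b : ℝ}
    (hb : ∀ θ, ‖f (cz r θ)‖ ≤ b) : ‖cell μ r f‖ ≤ b * (K * (1 - r⁻¹)⁻¹) := by
  have hpi : (0 : ℝ) < 2 * Real.pi := by positivity
  have hb0 : 0 ≤ b := (norm_nonneg _).trans (hb 0)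
  unfold cell
  have h1 : ‖∫ θ in Ioc (0 : ℝ) (2 * Real.pi), f (cz r θ) * circL μ r θ‖ ≤
      (b * (K * (1 - r⁻¹)⁻¹)) * (volume.real (Ioc (0 : ℝ) (2 * Real.pi))) := by
    apply norm_setIntegral_le_of_norm_le_const (by rw [Real.volume_Ioc]; exact ENNReal.ofReal_lt_top)
    intro θ _
    rw [norm_mul]
    exact mul_le_mul (hb θ) (norm_circL_le hr hK θ) (norm_nonneg _) hb0
  rw [norm_mul]
  have h2 : ‖((2 * Real.pi : ℂ))⁻¹‖ = (2 * Real.pi)⁻¹ := by
    rw [norm_inv]
    congr 1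
    have : (2 * Real.pi : ℂ) = ((2 * Real.pi : ℝ) : ℂ) := by push_cast; ring
    rw [this, Complex.norm_real, Real.norm_eq_abs, abs_of_pos hpi]
  rw [h2]
  have h3 : volume.real (Ioc (0 : ℝ) (2 * Real.pi)) = 2 * Real.pi := by
    rw [Measure.real, Real.volume_Ioc, ENNReal.toReal_ofReal (by linarith), sub_zero]
  rw [h3] at h1
  calc (2 * Real.pi)⁻¹ * _ ≤ (2 * Real.pi)⁻¹ * (b * (K * (1 - r⁻¹)⁻¹) * (2 * Real.pi)) := by gcongr
    _ = _ := by field_simp

/-- exchange with an integral over a parameter -/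
theorem cell_integral {μ : ℕ → ℝ} {r K : ℝ} (hr : 1 < r) (hK : ∀ k, |μ k| ≤ K)
    {S : Type*} [MeasurableSpace S] {ν : Measure S} [SFinite ν] {F : S → ℂ → ℂ} {g : S → ℝ}
    (hm : AEStronglyMeasurable (fun x : S × ℝ => F x.1 (cz r x.2))
      (ν.prod (volume.restrict (Ioc (0 : ℝ) (2 * Real.pi)))))
    (hg : Integrable g ν) (hb : ∀ s θ, ‖F s (cz r θ)‖ ≤ g s) :
    Integrable (fun s => cell μ r (F s)) ν ∧
    cell μ r (fun z => ∫ s, F s z ∂ν) = ∫ s, cell μ r (F s) ∂ν := by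
  have hpi : (0 : ℝ) < 2 * Real.pi := by positivity
  have hcL := continuous_circL hr hK
  set M : ℝ := K * (1 - r⁻¹)⁻¹
  have hM : ∀ θ, ‖circL μ r θ‖ ≤ M := norm_circL_le hr hK
  have hM0 : 0 ≤ M := (norm_nonneg _).trans (hM 0)
  have hI : Integrable (fun x : S × ℝ => F x.1 (cz r x.2) * circL μ r x.2)
      (ν.prod (volume.restrict (Ioc (0 : ℝ) (2 * Real.pi)))) := by
    have h1 : Integrable (fun x : S × ℝ => g x.1 * M)
        (ν.prod (volume.restrict (Ioc (0 : ℝ) (2 * Real.pi)))) := by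
      apply Integrable.mul_prod (f := g) (g := fun _ : ℝ => M) hg
      exact integrable_const M
    have h2 : AEStronglyMeasurable (fun x : S × ℝ => circL μ r x.2)
        (ν.prod (volume.restrict (Ioc (0 : ℝ) (2 * Real.pi)))) :=
      (hcL.measurable.comp measurable_snd).aestronglyMeasurable
    apply h1.mono' (hm.mul h2)
    apply Eventually.of_forall
    intro x
    rw [Pi.mul_apply, norm_mul]
    exact mul_le_mul (hb x.1 x.2) (hM x.2) (norm_nonneg _) ((norm_nonneg _).trans (hb x.1 x.2))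
  constructor
  · exact (hI.integral_prod_left).const_mul _
  · have h1 := integral_integral_swap (μ := ν)
      (ν := volume.restrict (Ioc (0 : ℝ) (2 * Real.pi)))
      (f := fun s θ => F s (cz r θ) * circL μ r θ) hI
    unfold cell
    rw [integral_const_mul, h1]
    congr 1
    apply setIntegral_congr_fun measurableSet_Ioc
    intro θ _
    exact (integral_mul_const _ _).symm

end Pool.Agent.GC34
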